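import Mathlib
import Pool.Agent.Q281.OS.Defs
import Pool.Agent.Q281.OS.Final

/-!
# MP_56b3f5_al, Q1: disproof at `j = 7/2`

The algebra `\overline I_3^{(7/2)}` has the character `X = Y = Z = -4`, `ω = 44`, at which the
Casimir relation, valid in `C_{7/2}`, fails. So the map on generators does not extend to an
isomorphism. This holds for the set `M_j` as printed in the problem and for the set of values of
`X - ω` with the numbers for general `j`.
-/

set_option autoImplicit false

namespace Pool.Agent.Results.MP_56b3f5_al.ExtraCharacter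

open Pool.Agent.Q281.OS

theorem result :
    (∃ (W : Type) (_ : AddCommGroup W) (_ : Module ℂ W) (ρ : Rep W), IsTop 7 ρ) ∧
    (∀ (W : Type) [AddCommGroup W] [Module ℂ W] (ρ : Rep W), IsTop 7 ρ →
      (∀ M : Finset ℤ, (-48 : ℤ) ∈ M → ¬ Conj 7 M ρ) ∧
        ¬ Conj 7 (Mprinted 7) ρ ∧ ¬ Conj 7 (Mgeneral 7) ρ) ∧
    Mgeneral 1 = Mprinted 1 ∧ (Mgeneral 7).card = 169 :=
  final

end Pool.Agent.Results.MP_56b3f5_al.ExtraCharacter
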